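import Pool.Agent.AEN.Stmts

/-!
# Anderson model, the cheap end, row DCY
-/

set_option autoImplicit false

open MeasureTheory ProbabilityTheory Function Filter

open scoped ENNReal BigOperators InnerProductSpace Topology

noncomputable section

namespace Pool.Agent.AEN.H20

open Pool.Agent.Anderson Pool.Agent.Loc Pool.Agent.Helper54.Bal Pool.Agent.AEN

theorem cont_Gn (d : ℕ) (E : ℝ) (n : ℕ) (x : Site d) :
    Continuous fun V : Site d → ℝ => Gn V E n x := by
  have h0 : Continuous fun V : Site d → ℝ => (V, E, (del x : L2 d)) :=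
    continuous_id.prodMk continuous_const
  have h := (continuous_G (d := d) (η := et n) (et_pos n).ne').comp h0
  unfold Gn zn
  exact h

theorem cont_Gny (d : ℕ) (E : ℝ) (n : ℕ) (x y : Site d) :
    Continuous fun V : Site d → ℝ => Gn V E n x y := by
  have h : (fun V : Site d → ℝ => Gn V E n x y) =
      fun V : Site d → ℝ => ⟪(del y : L2 d), Gn V E n x⟫_ℂ := by
    funext V
    rw [inner_del_left]
  rw [h]
  exact continuous_const.inner (cont_Gn d E n x)

theorem Gn_pos {d : ℕ} (V : Site d → ℝ) (E : ℝ) (n : ℕ) : 0 < ‖Gn V E n 0‖ :=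
  Pool.Agent.QE.norm_G_del_pos (zn_im_ne E n) 0

theorem fr_nonneg {d : ℕ} (V : Site d → ℝ) (E : ℝ) (n : ℕ) : 0 ≤ fr V E n := by
  unfold fr
  positivity

theorem fr_le_one {d : ℕ} (V : Site d → ℝ) (E : ℝ) (n : ℕ) : fr V E n ≤ 1 := by
  unfold fr
  have hp := Gn_pos V E n
  rw [div_le_one (by positivity)]
  have h1 : ‖Gn V E n 0 0‖ ≤ ‖Gn V E n 0‖ := by
    have h2 : Gn V E n 0 0 = ⟪(del 0 : L2 d), Gn V E n 0⟫_ℂ := by rw [inner_del_left]
    rw [h2]
    refine (norm_inner_le_norm _ _).trans (le_of_eq ?_)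
    rw [norm_del, one_mul]
  exact pow_le_pow_left₀ (norm_nonneg _) h1 2

theorem meas_fr (d : ℕ) (E : ℝ) (n : ℕ) : Measurable fun V : Site d → ℝ => fr V E n := by
  unfold fr
  exact ((cont_Gny d E n 0 0).norm.pow 2).measurable.div ((cont_Gn d E n 0).norm.pow 2).measurable

theorem integrand_eq {d : ℕ} (V : Site d → ℝ) (E : ℝ) (n : ℕ) :
    et n * ‖Gn V E n 0 0‖ ^ 2 = fr V E n * (G V (zz (et n) E) (del 0) 0).im := by
  have h := Pool.Agent.QE.im_G_del' (V := V) (zn_im_ne E n) (0 : Site d)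
  rw [zn_im] at h
  have hp := Gn_pos V E n
  have h1 : (G V (zz (et n) E) (del 0) 0).im = et n * ‖Gn V E n 0‖ ^ 2 := h
  rw [h1]
  unfold fr
  field_simp

theorem null_gl {σ : ℝ} (hσ : σ ≠ 0) (a : ℝ) : gl σ {a} = 0 := by
  have h := (bddDens_gl hσ).2 a a
  rw [Set.Icc_self, sub_self, mul_zero, ENNReal.ofReal_zero] at h
  exact le_antisymm h zero_le

theorem JJ_le (hS : SpaStmt) (hR : RatStmt) {d : ℕ} {σ : ℝ} (E : ℝ) (hσ : σ ≠ 0) (n : ℕ) :
    JJ d σ E n ≤ (∫⁻ V : Site d → ℝ, ENNReal.ofReal (fr V E n) ∂(PP d (gl σ))) *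
      ENNReal.ofReal (cs σ) := by
  have hm : Measurable fun V : Site d → ℝ => ENNReal.ofReal (et n * ‖Gn V E n 0 0‖ ^ 2) :=
    ENNReal.measurable_ofReal.comp
      (continuous_const.mul ((cont_Gny d E n 0 0).norm.pow 2)).measurable
  have h1 : JJ d σ E n = ∫⁻ V : Site d → ℝ, (∫⁻ s : ℝ, ENNReal.ofReal
      (et n * ‖Gn (Function.update V 0 s) E n 0 0‖ ^ 2) ∂(gl σ)) ∂(PP d (gl σ)) := by
    unfold JJ
    have h2 := (resamp_PP (d := d) (gl σ)).lintegral_comp hm
    rw [← h2]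
    exact lintegral_prod _ (hm.comp measurable_upd).aemeasurable
  have hf : Measurable fun V : Site d → ℝ => ENNReal.ofReal (fr V E n) :=
    ENNReal.measurable_ofReal.comp (meas_fr d E n)
  rw [h1, ← lintegral_mul_const _ hf]
  apply lintegral_mono
  intro V
  have h3 : ∀ s : ℝ, ENNReal.ofReal (et n * ‖Gn (Function.update V 0 s) E n 0 0‖ ^ 2) =
      ENNReal.ofReal (fr V E n) *
        ENNReal.ofReal (G (Function.update V 0 s) (zz (et n) E) (del 0) 0).im := by
    intro s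
    rw [integrand_eq, (hR d V E s).1 n, ENNReal.ofReal_mul (fr_nonneg V E n)]
  simp_rw [h3]
  rw [lintegral_const_mul' _ _ ENNReal.ofReal_ne_top]
  exact mul_le_mul_right (hS d σ E (et n) V hσ (et_pos n)) _

theorem dcy (hS : SpaStmt) (hR : RatStmt) : DcyStmt := by
  intro d σ E hσ
  constructor
  · intro n
    refine (JJ_le hS hR E hσ n).trans ?_
    have h1 : ∫⁻ V : Site d → ℝ, ENNReal.ofReal (fr V E n) ∂(PP d (gl σ)) ≤ 1 := by
      calc ∫⁻ V : Site d → ℝ, ENNReal.ofReal (fr V E n) ∂(PP d (gl σ))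
          ≤ ∫⁻ _V : Site d → ℝ, 1 ∂(PP d (gl σ)) := by
            apply lintegral_mono
            intro V
            exact ENNReal.ofReal_le_one.2 (fr_le_one V E n)
        _ = 1 := by rw [lintegral_const, measure_univ, mul_one]
    calc (∫⁻ V : Site d → ℝ, ENNReal.ofReal (fr V E n) ∂(PP d (gl σ))) * ENNReal.ofReal (cs σ)
        ≤ 1 * ENNReal.ofReal (cs σ) := by gcongr
      _ = ENNReal.ofReal (cs σ) := one_mul _
  · intro h
    have h1 : ∀ᵐ p ∂((PP d (gl σ)).prod (gl σ)), ¬ Bd (Function.update p.1 0 p.2) E 0 :=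
      (resamp_PP (d := d) (gl σ)).quasiMeasurePreserving.ae h
    have h2 : ∀ᵐ V ∂(PP d (gl σ)), ∀ᵐ s ∂(gl σ), ¬ Bd (Function.update V 0 s) E 0 :=
      Measure.ae_ae_of_ae_prod h1
    have h3 : ∀ᵐ V ∂(PP d (gl σ)), Tendsto (fun n => ENNReal.ofReal (fr V E n)) atTop
        (𝓝 0) := by
      filter_upwards [h, h2] with V hV hV2
      have h4 : ∀ᵐ s ∂(gl σ), s ≠ V 0 := by
        rw [ae_iff]
        have h5 : {a : ℝ | ¬ a ≠ V 0} = {V 0} := by
          ext a
          simp
        rw [h5]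
        exact null_gl hσ _
      obtain ⟨s, hs1, hs2⟩ := (hV2.and h4).exists
      have h6 := (hR d V E s).2 hs2 hV hs1
      have h7 := ENNReal.tendsto_ofReal h6
      rwa [ENNReal.ofReal_zero] at h7
    have h8 : Tendsto (fun n => ∫⁻ V : Site d → ℝ, ENNReal.ofReal (fr V E n) ∂(PP d (gl σ)))
        atTop (𝓝 (∫⁻ _V : Site d → ℝ, 0 ∂(PP d (gl σ)))) := by
      apply tendsto_lintegral_of_dominated_convergence (fun _ => (1 : ℝ≥0∞))
      · intro n
        exact ENNReal.measurable_ofReal.comp (meas_fr d E n)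
      · intro n
        exact Eventually.of_forall fun V => ENNReal.ofReal_le_one.2 (fr_le_one V E n)
      · rw [lintegral_const, measure_univ, mul_one]
        exact ENNReal.one_ne_top
      · exact h3
    rw [lintegral_zero] at h8
    have h9 : Tendsto (fun n => (∫⁻ V : Site d → ℝ, ENNReal.ofReal (fr V E n) ∂(PP d (gl σ))) *
        ENNReal.ofReal (cs σ)) atTop (𝓝 0) := by
      have := ENNReal.Tendsto.mul_const (b := ENNReal.ofReal (cs σ)) h8
        (Or.inr ENNReal.ofReal_ne_top)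
      rwa [zero_mul] at this
    exact tendsto_of_tendsto_of_tendsto_of_le_of_le tendsto_const_nhds h9
      (fun n => zero_le) (fun n => JJ_le hS hR E hσ n)

end Pool.Agent.AEN.H20
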