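import Pool.Agent.AEN.Stmts

/-!
# Anderson model, the cheap end, row END
-/

set_option autoImplicit false

open MeasureTheory ProbabilityTheory Function Filter

open scoped ENNReal BigOperators InnerProductSpace Topology

noncomputable section

namespace Pool.Agent.AEN.H20

open Pool.Agent.Anderson Pool.Agent.Loc Pool.Agent.Helper54.Bal Pool.Agent.AEN

theorem eig_shift {d : ℕ} {V : Site d → ℝ} {E0 : ℝ} {φ : L2 d} (h : IsEigen V E0 φ)
    (x : Site d) : IsEigen (tau x V) E0 (shift x φ) := by
  intro y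
  have h1 := h (y + x)
  have h2 : lap (shift x φ) y = lap φ (y + x) := by
    unfold lap
    apply Finset.sum_congr rfl
    intro i _
    rw [shift_apply, shift_apply]
    have e1 : y + Pi.single i 1 + x = y + x + Pi.single i 1 := by abel
    have e2 : y - Pi.single i 1 + x = y + x - Pi.single i 1 := by abel
    rw [e1, e2]
  rw [h2, shift_apply]
  exact h1

theorem end_ (hZ : ZonStmt) (hF : FtuStmt) (hE : EigStmt) : EndStmt := by
  intro d σ a b hd hσ h
  have h1 : ∀ᵐ E ∂((volume : Measure ℝ).restrict (Set.Ioo a b)),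
      ∀ᵐ V ∂(PP d (gl σ)), ¬ Bd V E 0 := by
    filter_upwards [h] with E hE'
    filter_upwards [hZ d σ E hd hσ hE'] with V hV
    exact hV 0
  have h2 := hF d σ a b hσ h1
  have h3 : ∀ᵐ V ∂(PP d (gl σ)), ∀ x : Site d,
      liminf (fun n => II (tau x V) a b n) atTop = 0 := by
    rw [ae_all_iff]
    intro x
    exact (shiftInv_PP (gl σ) x).quasiMeasurePreserving.ae h2
  filter_upwards [h3] with V hV E0 h4 h5 φ hφ
  have h6 : ∀ x, φ x = 0 := by
    intro x
    by_contra hne
    have hx : shift x φ 0 = φ x := by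
      rw [shift_apply, zero_add]
    have hφ0 : shift x φ ≠ 0 := by
      intro h0
      apply hne
      rw [← hx, h0]
      rfl
    have hE1 := hE d (tau x V) a b E0 (shift x φ) h4 h5 (eig_shift hφ x) hφ0
    have h7 : ENNReal.ofReal (‖shift x φ 0‖ ^ 4 / (2 * ‖shift x φ‖ ^ 4)) ≤
        liminf (fun n => II (tau x V) a b n) atTop :=
      le_liminf_of_le (by isBoundedDefault) hE1
    rw [hV x] at h7
    have h8 : 0 < ‖shift x φ 0‖ ^ 4 / (2 * ‖shift x φ‖ ^ 4) := by
      have h9 : 0 < ‖shift x φ 0‖ := by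
        rw [hx]
        exact norm_pos_iff.2 hne
      have h10 : 0 < ‖shift x φ‖ := norm_pos_iff.2 hφ0
      positivity
    exact absurd h7 (not_le.2 (ENNReal.ofReal_pos.2 h8))
  ext x
  rw [h6 x]
  rfl

end Pool.Agent.AEN.H20
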